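import Pool.Agent.Run7.h439.DC.LL
import Pool.Agent.R468.GL.Inst

set_option autoImplicit false

/-!
# Total stopping times in classes defined by digits

A class consists of the integers whose values of given strongly additive digit functions (for example
sums of digits), in pairwise coprime odd bases, lie in given residue classes. One such class decides about
Q1 up to a power saving exceptional set: if `σ(n) ≤ B log n` for all `n` of one class, then all total
stopping times are finite and `σ(n) ≤ B log n` for all but `O(X ^ (1 - κ))` of all `n ≤ X`. More precisely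
the exceptions have in every class their proportional share, up to `O(X ^ (1 - κ))`, and so has every set
of values of `σ`, uniformly; in the central range even the single levels `σ(n) = k` are equidistributed
over the classes, with the same local limit law.

Method: a dispersion argument. For `n > 2 ^ t` the number `σ(n)` is a function of `T^t(n)` and the number
of odd terms before it; for a given number of odd terms the integers `n ≤ N` with the same `T^t(n)` lie in
a short interval and are determined by their residue modulo `2 ^ t`, and the correlations of the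
multiplicative digit functions along the progressions modulo `2 ^ t` are products over the bases.
-/

namespace Pool.Agent.Results.MP_a1568a_nt.DigitClassesTimes

open Filter Topology

/-- the `3x+1` function -/
def T (n : ℕ) : ℕ := if n % 2 = 0 then n / 2 else (3 * n + 1) / 2

/-- the total stopping time, the least `k` with `T^k(n) = 1`, and `⊤ = ∞` if there is none -/
noncomputable def sigma (n : ℕ) : ℕ∞ := sInf {k : ℕ∞ | ∃ j : ℕ, T^[j] n = 1 ∧ k = j}

/-- `W` is strongly `q`-additive: `W(n)` is the sum of the values of `W` at the digits of `n` in base `q`. -/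
def StronglyAdditive (q : ℕ) (W : ℕ → ℤ) : Prop := ∀ n r : ℕ, r < q → W (q * n + r) = W n + W r

/-- There is no prime `p ∣ m` such that `W(r) ≡ r W(1)` modulo `p` for all `r ≤ q`. For the sum of the
digits in base `q` this says that `m` is coprime to `q - 1`. -/
def Unobstructed (q : ℕ) (W : ℕ → ℤ) (m : ℕ) : Prop :=
  ∀ p : ℕ, p.Prime → p ∣ m → ∃ r : ℕ, r ≤ q ∧ ¬ W r ≡ r * W 1 [ZMOD p]

/-- The data: pairwise coprime odd bases `q i ≥ 3`, strongly `q i`-additive functions `W i` with integer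
values, and moduli `m i ≥ 1` without obstruction. -/
structure Data {l : ℕ} (q m : Fin l → ℕ) (W : Fin l → ℕ → ℤ) : Prop where
  odd : ∀ i, 3 ≤ q i ∧ q i % 2 = 1
  coprime : ∀ i j, i ≠ j → Nat.Coprime (q i) (q j)
  additive : ∀ i, StronglyAdditive (q i) (W i)
  pos : ∀ i, 1 ≤ m i
  free : ∀ i, Unobstructed (q i) (W i) (m i)

/-- the class: `W i (n) ≡ a i` modulo `m i` for all `i` -/
def InClass {l : ℕ} (m : Fin l → ℕ) (W : Fin l → ℕ → ℤ) (a : Fin l → ℤ) (n : ℕ) : Prop :=
  ∀ i, W i n ≡ a i [ZMOD m i]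

/-- the number of the `n` with `1 ≤ n ≤ X` and the property `P` -/
noncomputable def count (P : ℕ → Prop) (X : ℕ) : ℝ := ({n : ℕ | 1 ≤ n ∧ n ≤ X ∧ P n}.ncard : ℝ)

/-- `n` is an exception to `σ(n) ≤ B log n`. -/
def Slow (B : ℝ) (n : ℕ) : Prop := ¬ ∃ t : ℕ, sigma n = t ∧ (t : ℝ) ≤ B * Real.log n

/-- the constant `2 / log (4/3)` of the mean value -/
noncomputable def μ : ℝ := 2 / Real.log (4 / 3)

/-- the constant of the variance -/
noncomputable def σ2 : ℝ := 2 * Real.log 3 ^ 2 / Real.log (4 / 3) ^ 3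

/-- the value at `k` of the density of the normal distribution of mean `μ log X` and variance
`σ2 log X` -/
noncomputable def g (X k : ℕ) : ℝ :=
  Real.exp (-(((k : ℝ) - μ * Real.log X) ^ 2 / (2 * (σ2 * Real.log X)))) /
    Real.sqrt (2 * Real.pi * (σ2 * Real.log X))

open Pool.Agent.H499R2.HL Pool.Agent.Y965.PL
open Pool.Agent.Run7.h439.DC (DD CTA Ed Ed_iff cta_digits rho01 ind_and loc_law loc_share gn)

theorem T_eq : T = Pool.Agent.H499R2.ND.Tn := by funext a; rfl

theorem sigma_eq {n k : ℕ} (h : H k n) : sigma n = k := by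
  unfold sigma
  rw [T_eq]
  apply le_antisymm
  · exact sInf_le ⟨k, h.1, rfl⟩
  · refine le_sInf ?_
    rintro j ⟨i, hi, rfl⟩
    have : k ≤ i := by
      by_contra hlt
      exact h.2 i (by omega) hi
    exact_mod_cast this

theorem sigma_top {n : ℕ} (h : ¬ ∃ k, H k n) : sigma n = ⊤ := by
  unfold sigma
  rw [T_eq]
  have : {k : ℕ∞ | ∃ j : ℕ, Pool.Agent.H499R2.ND.Tn^[j] n = 1 ∧ k = j} = ∅ := by
    rw [Set.eq_empty_iff_forall_notMem]
    rintro k ⟨j, hj, _⟩
    exact h (H_iff_ex.2 ⟨j, hj⟩)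
  rw [this, sInf_empty]

theorem sigma_ne_top {n : ℕ} : sigma n ≠ ⊤ ↔ ∃ k, H k n := by
  constructor
  · intro h
    by_contra hcon
    exact h (sigma_top hcon)
  · rintro ⟨k, hk⟩
    rw [sigma_eq hk]
    exact ENat.natCast_ne_top k

theorem sigma_iff {n k : ℕ} : sigma n = k ↔ H k n := by
  constructor
  · intro h
    obtain ⟨k', hk'⟩ := sigma_ne_top.1 (show sigma n ≠ ⊤ by rw [h]; exact ENat.natCast_ne_top k)
    have h1 := sigma_eq hk'
    rw [h] at h1
    have h2 : k = k' := by exact_mod_cast h1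
    rw [h2]; exact hk'
  · exact sigma_eq

theorem slow_iff (B : ℝ) (n : ℕ) : Slow B n ↔ Pool.Agent.Run7.h439.DC.Slow B n := by
  unfold Slow Pool.Agent.Run7.h439.DC.Slow
  simp only [sigma_iff]

theorem count_ind (P : ℕ → Prop) (X : ℕ) : count P X = ∑ n ∈ Finset.Icc 1 X, ind P n := by
  classical
  unfold ind count
  rw [Finset.sum_boole]
  have e : {n : ℕ | 1 ≤ n ∧ n ≤ X ∧ P n} = ((Finset.Icc 1 X).filter fun n => P n : Finset ℕ) := by
    ext n
    simp only [Set.mem_ofPred_eq, Finset.coe_filter, Finset.mem_Icc, and_assoc]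
  rw [e, Set.ncard_coe_finset]

/-- TOTAL STOPPING TIMES IN DIGIT CLASSES. There are `0 < δ ≤ 1` (the density of the integers with
`σ(n) < ∞`, equal to `1` if and only if all are of this kind) and a continuous function `Ψ` of period `1`
with `δ (log 3) / 2 ≤ Ψ ≤ 3 δ (log 3) / 2` such that for all data `q, m, W` there are `K` and `0 < c < 1`
such that for every class `a`, with `ρ = ∏ 1 / m i`:

(1) For every set `S` of values and all `X ≥ 1` the number of the `n ≤ X` in the class with `σ(n) ∈ S` is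
`ρ` times the number of all `n ≤ X` with `σ(n) ∈ S`, up to `K X ^ (1 - c)`.

(2) For all `B ≥ 0` and `X ≥ 1` the number of the `n ≤ X` in the class which are exceptions to
`σ(n) ≤ B log n` is `ρ` times the number of all such exceptions, up to `K (B + 1) X ^ (1 - c)`.

(3) If for some `B ≥ 0` the class has at most `M X ^ (1 - c)` exceptions `n ≤ X` to `σ(n) ≤ B log n`, for
all `X ≥ 1` (for example none), then all positive integers have finite total stopping time, and at most
`M' X ^ (1 - c)` of all integers `n ≤ X` are exceptions.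

(4) (Equal shares on the levels.) For every `B` there are `K'` and `X₀` such that for `X ≥ X₀` and
`|k - μ log X| ≤ B √(log X)` there are integers `n ≤ X` with `σ(n) = k` and the proportion of those in the
class is `ρ` up to `K' X ^ (-c/2)`.

(5) (Local limit law.) The number of the `n ≤ X` in the class with `σ(n) = k`, divided by `X g(X, k)`, is
`ρ Ψ(log_3 (X / 2^k)) + o(1)`, uniformly for the `k` with `|k - μ log X| ≤ B √(log X)`, for every `B`. -/
theorem result : ∃ (δ : ℝ) (Ψ : ℝ → ℝ), 0 < δ ∧ δ ≤ 1 ∧ (δ = 1 ↔ ∀ n : ℕ, 1 ≤ n → sigma n ≠ ⊤) ∧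
    Tendsto (fun X : ℕ => count (fun n => sigma n ≠ ⊤) X / X) atTop (𝓝 δ) ∧
    Continuous Ψ ∧ (∀ s : ℝ, Ψ (s + 1) = Ψ s) ∧
    (∀ s : ℝ, δ * (Real.log 3 / 2) ≤ Ψ s ∧ Ψ s ≤ δ * (3 * Real.log 3 / 2)) ∧
    ∀ (l : ℕ) (q m : Fin l → ℕ) (W : Fin l → ℕ → ℤ), Data q m W →
    ∃ K c : ℝ, 0 < c ∧ c < 1 ∧ ∀ a : Fin l → ℤ,
    (∀ S : Set ℕ∞, ∀ X : ℕ, 1 ≤ X →
      |count (fun n => InClass m W a n ∧ sigma n ∈ S) X - (∏ i, 1 / (m i : ℝ)) * count (fun n => sigma n ∈ S) X| ≤
        K * (X : ℝ) ^ (1 - c)) ∧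
    (∀ B : ℝ, 0 ≤ B → ∀ X : ℕ, 1 ≤ X →
      |count (fun n => InClass m W a n ∧ Slow B n) X - (∏ i, 1 / (m i : ℝ)) * count (Slow B) X| ≤
        K * (B + 1) * (X : ℝ) ^ (1 - c)) ∧
    (∀ B M : ℝ, 0 ≤ B → (∀ X : ℕ, 1 ≤ X → count (fun n => InClass m W a n ∧ Slow B n) X ≤ M * (X : ℝ) ^ (1 - c)) →
      (∀ n : ℕ, 1 ≤ n → sigma n ≠ ⊤) ∧
      ∃ M' : ℝ, ∀ X : ℕ, 1 ≤ X → count (Slow B) X ≤ M' * (X : ℝ) ^ (1 - c)) ∧
    (∀ B : ℝ, ∃ (K' : ℝ) (X₀ : ℕ), ∀ X : ℕ, X₀ ≤ X → ∀ k : ℕ,
      |(k : ℝ) - μ * Real.log X| ≤ B * Real.sqrt (Real.log X) →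
      0 < count (fun n => sigma n = k) X ∧
      |count (fun n => InClass m W a n ∧ sigma n = k) X / count (fun n => sigma n = k) X - ∏ i, 1 / (m i : ℝ)| ≤
        K' * (X : ℝ) ^ (-(c / 2))) ∧
    ∀ B ε : ℝ, 0 < ε → ∃ X₀ : ℕ, ∀ X : ℕ, X₀ ≤ X → ∀ k : ℕ,
      |(k : ℝ) - μ * Real.log X| ≤ B * Real.sqrt (Real.log X) →
      |count (fun n => InClass m W a n ∧ sigma n = k) X / (X * g X k) -
        (∏ i, 1 / (m i : ℝ)) * Ψ (Real.logb 3 (X / 2 ^ k))| ≤ ε := by
  classical
  obtain ⟨δ, Ψ, hδ0, hδ1, h2, h3, hΨc, hΨp, hΨb, -, hlaw⟩ := Pool.Agent.R468.GL.law_T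
  have hν := nu_pos'
  have hall : δ = 1 ↔ ∀ n : ℕ, 1 ≤ n → sigma n ≠ ⊤ := by
    rw [h2]
    refine forall₂_congr fun n _ => ?_
    rw [sigma_ne_top, H_iff_ex]
  have hdens : Tendsto (fun X : ℕ => count (fun n => sigma n ≠ ⊤) X / X) atTop (𝓝 δ) := by
    have h4 : Pool.Agent.H499R2.ND.Dn (fun n => sigma n ≠ ⊤) δ :=
      Pool.Agent.H499R2.LT.Dn_iff (fun n _ => by rw [sigma_ne_top, H_iff_ex]) h3
    exact h4
  refine ⟨δ, Ψ, hδ0, hδ1, hall, hdens, hΨc, hΨp, hΨb, fun l q m W hD => ?_⟩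
  have hDD : DD 2 q m W := by
    refine ⟨fun i => (hD.odd i).1, fun i => ?_, hD.coprime, hD.additive, hD.pos, hD.free⟩
    rw [Nat.coprime_two_left]
    exact Nat.odd_iff.2 (hD.odd i).2
  obtain ⟨C, c, hC, hc0, hc1, hT⟩ := cta_digits hDD
  obtain ⟨hρ0, hρ1⟩ := rho01 hD.pos
  set ρ : ℝ := ∏ i, 1 / (m i : ℝ) with hρ
  set K : ℝ := 3 * C * (1 + 2 / c) with hK
  have hCK : C ≤ K := by
    rw [hK]
    have : 0 ≤ 2 / c := by positivity
    nlinarith
  refine ⟨K, c / 2, by positivity, by linarith, fun a => ?_⟩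
  have hA := hT a
  have hcl : ∀ n, InClass m W a n ↔ Ed m W a n := fun n => Ed_iff
  have hcnt : ∀ (P : ℕ → Prop) (X : ℕ), count (fun n => InClass m W a n ∧ P n) X =
      ∑ n ∈ Finset.Icc 1 X, ind (Ed m W a) n * ind P n := by
    intro P X
    rw [count_ind]
    apply Finset.sum_congr rfl
    intro n _
    rw [← ind_and]
    exact ind_congr (and_congr (hcl n) Iff.rfl)
  -- values
  have hS : ∀ S : Set ℕ∞, ∀ X : ℕ, 1 ≤ X →
      |count (fun n => InClass m W a n ∧ sigma n ∈ S) X - ρ * count (fun n => sigma n ∈ S) X| ≤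
        C * (X : ℝ) ^ (1 - c) := by
    intro S X hX
    have h1 := (hA.fg (g := fun k _ => if (k : ℕ∞) ∈ S then 1 else 0) (g0 := if (⊤ : ℕ∞) ∈ S then 1 else 0)
      (fun _ _ => by split_ifs <;> simp) (by split_ifs <;> simp)).tr X hX
    have e : ∀ n, Fg (fun k _ => if (k : ℕ∞) ∈ S then 1 else 0) (if (⊤ : ℕ∞) ∈ S then 1 else 0) n =
        ind (fun n => sigma n ∈ S) n := by
      intro n
      by_cases h : ∃ k, H k n
      · obtain ⟨k, hk⟩ := h
        rw [Fg_H hk]
        by_cases h4 : (k : ℕ∞) ∈ S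
        · rw [if_pos h4, ind_pos (P := fun n => sigma n ∈ S) (by rw [sigma_eq hk]; exact h4)]
        · rw [if_neg h4, ind_neg (P := fun n => sigma n ∈ S) (by rw [sigma_eq hk]; exact h4)]
      · rw [Fg_not h]
        by_cases h4 : (⊤ : ℕ∞) ∈ S
        · rw [if_pos h4, ind_pos (P := fun n => sigma n ∈ S) (by rw [sigma_top h]; exact h4)]
        · rw [if_neg h4, ind_neg (P := fun n => sigma n ∈ S) (by rw [sigma_top h]; exact h4)]
    simp only [e] at h1
    rw [hcnt, count_ind]
    exact h1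
  have hpow : ∀ X : ℕ, 1 ≤ X → (X : ℝ) ^ (1 - c) ≤ (X : ℝ) ^ (1 - c / 2) := by
    intro X hX
    exact Real.rpow_le_rpow_of_exponent_le (by exact_mod_cast hX) (by linarith)
  have hslow : ∀ B : ℝ, 0 ≤ B → ∀ X : ℕ, 1 ≤ X →
      |count (fun n => InClass m W a n ∧ Slow B n) X - ρ * count (Slow B) X| ≤ K * (B + 1) * (X : ℝ) ^ (1 - c / 2) := by
    intro B hB X hX
    rw [hcnt, count_ind]
    have e : ind (Slow B) = ind (Pool.Agent.Run7.h439.DC.Slow B) := by
      funext n; exact ind_congr (slow_iff B n)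
    rw [e]
    exact hA.slow hC hc0 hc1 hB hX
  have hlev : ∀ X : ℕ, 1 ≤ X → ∀ k : ℕ, |count (fun n => InClass m W a n ∧ sigma n = k) X -
      ρ * count (fun n => sigma n = k) X| ≤ C * (X : ℝ) ^ (1 - c) := by
    intro X hX k
    have := hS {(k : ℕ∞)} X hX
    simpa using this
  have hll : ∀ K ε : ℝ, 0 < ε → ∃ X₀ : ℝ, ∀ X : ℕ, X₀ ≤ X → ∀ k : ℕ,
      |(k : ℝ) - μ * Real.log X| ≤ K * Real.sqrt (Real.log X) →
      |count (fun n => sigma n = k) X / (X * gn μ σ2 X k) - Ψ (Real.logb 3 (X / 2 ^ k))| ≤ ε := by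
    intro K ε hε
    obtain ⟨X₀, hX₀⟩ := hlaw K ε hε
    refine ⟨X₀, fun X hX k hk => ?_⟩
    have h4 := hX₀ X hX k hk
    have e : count (fun n => sigma n = k) X = ({n : ℕ | 1 ≤ n ∧ (n : ℝ) ≤ (X : ℝ) ∧
        (Pool.Agent.H499R2.ND.Tn^[k] n = 1 ∧ ∀ i < k, Pool.Agent.H499R2.ND.Tn^[i] n ≠ 1)}.ncard : ℝ) := by
      unfold count
      congr 2
      ext n
      simp only [Set.mem_ofPred_eq, sigma_iff, Nat.cast_le]
      rfl
    rw [e]
    exact h4
  have hs : 0 < σ2 := by
    have : 0 < Real.log 3 := Real.log_pos (by norm_num)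
    unfold σ2; positivity
  refine ⟨fun S X hX => ?_, hslow, ?_, ?_, ?_⟩
  · refine (hS S X hX).trans ?_
    exact mul_le_mul hCK (hpow X hX) (by positivity) (hC.trans hCK)
  · intro B M hB hM
    constructor
    · rw [← hall]
      by_contra hne
      have hlt : 0 < 1 - δ := by
        have := lt_of_le_of_ne hδ1 hne
        linarith
      -- the infinite ones
      have h4 : ∀ X : ℕ, 1 ≤ X → ρ * (X - count (fun n => sigma n ≠ ⊤) X) ≤ (M + C) * (X : ℝ) ^ (1 - c / 2) := by
        intro X hX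
        have h5 := hS {⊤} X hX
        have h6 := hM X hX
        have h7 : count (fun n => InClass m W a n ∧ sigma n ∈ ({⊤} : Set ℕ∞)) X ≤
            count (fun n => InClass m W a n ∧ Slow B n) X := by
          rw [count_ind, count_ind]
          apply Finset.sum_le_sum
          intro n _
          apply ind_mono
          rintro ⟨g1, g2⟩
          refine ⟨g1, ?_⟩
          rintro ⟨t, ht, _⟩
          rw [Set.mem_singleton_iff] at g2
          rw [g2] at ht
          exact ENat.natCast_ne_top t ht.symm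
        have h8 : count (fun n => sigma n ∈ ({⊤} : Set ℕ∞)) X = X - count (fun n => sigma n ≠ ⊤) X := by
          rw [count_ind, count_ind, eq_sub_iff_add_eq, ← Finset.sum_add_distrib]
          have : ∀ n ∈ Finset.Icc 1 X, ind (fun n => sigma n ∈ ({⊤} : Set ℕ∞)) n + ind (fun n => sigma n ≠ ⊤) n = 1 := by
            intro n _
            by_cases h9 : sigma n = ⊤
            · rw [ind_pos (P := fun n => sigma n ∈ ({⊤} : Set ℕ∞)) h9, ind_neg (P := fun n => sigma n ≠ ⊤) (fun h => h h9),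
                add_zero]
            · rw [ind_neg (P := fun n => sigma n ∈ ({⊤} : Set ℕ∞)) h9, ind_pos (P := fun n => sigma n ≠ ⊤) h9, zero_add]
          rw [Finset.sum_congr rfl this]
          simp
        rw [h8] at h5
        have h9 := (abs_le.1 h5).1
        have h10 := mul_le_mul_of_nonneg_left (hpow X hX) hC
        linarith
      have h5 : Tendsto (fun X : ℕ => (M + C) * (X : ℝ) ^ (-(c / 2))) atTop (𝓝 0) := by
        have g1 := (tendsto_rpow_neg_atTop (show 0 < c / 2 by positivity)).comp tendsto_natCast_atTop_atTop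
        have g2 := g1.const_mul (M + C)
        rw [mul_zero] at g2
        exact g2
      have h6 : Tendsto (fun X : ℕ => ρ * (1 - count (fun n => sigma n ≠ ⊤) X / X)) atTop (𝓝 (ρ * (1 - δ))) :=
        (tendsto_const_nhds.sub hdens).const_mul ρ
      have h7 : ρ * (1 - δ) ≤ 0 := by
        refine le_of_tendsto_of_tendsto h6 h5 ?_
        filter_upwards [eventually_ge_atTop 1] with X hX
        have hX0 : (0 : ℝ) < X := by exact_mod_cast hX
        have h8 := h4 X hX
        have e : (X : ℝ) ^ (1 - c / 2) = (X : ℝ) ^ (-(c / 2)) * X := by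
          rw [sub_eq_neg_add, Real.rpow_add hX0, Real.rpow_one]
        rw [e] at h8
        have e2 : ρ * (1 - count (fun n => sigma n ≠ ⊤) X / X) * X = ρ * (X - count (fun n => sigma n ≠ ⊤) X) := by
          field_simp
        have h9 : ρ * (1 - count (fun n => sigma n ≠ ⊤) X / X) * X ≤ (M + C) * (X : ℝ) ^ (-(c / 2)) * X := by
          rw [e2]; linarith
        exact le_of_mul_le_mul_right h9 hX0
      have := mul_pos hρ0 hlt
      linarith
    · refine ⟨(M + K * (B + 1)) / ρ, fun X hX => ?_⟩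
      have h5 := (abs_le.1 (hslow B hB X hX)).1
      have h6 := hM X hX
      rw [div_mul_eq_mul_div, le_div_iff₀ hρ0]
      linarith
  · intro B
    obtain ⟨K', X₀, h4⟩ := loc_share (N := fun X k => count (fun n => sigma n = k) X)
      (NE := fun X k => count (fun n => InClass m W a n ∧ sigma n = k) X) (ρ := ρ) hC hc0 hs
      (p := δ * (Real.log 3 / 2)) (by
        have : 0 < Real.log 3 := Real.log_pos (by norm_num)
        positivity) hlev (Ψ := fun X k => Ψ (Real.logb 3 (X / 2 ^ k))) (fun X k => (hΨb _).1) hll B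
    refine ⟨|K'|, max X₀ 1, fun X hX k hk => ?_⟩
    obtain ⟨h5, h6⟩ := h4 X ((le_max_left _ _).trans hX) k hk
    refine ⟨h5, h6.trans ?_⟩
    have hX1 : (1 : ℝ) ≤ X := by exact_mod_cast (le_max_right _ _).trans hX
    have h7 : (X : ℝ) ^ (-(c / 2)) ≤ (X : ℝ) ^ (-(c / 2 / 2)) :=
      Real.rpow_le_rpow_of_exponent_le hX1 (by linarith)
    exact mul_le_mul (le_abs_self _) h7 (by positivity) (abs_nonneg _)
  · intro B ε hε
    exact loc_law (N := fun X k => count (fun n => sigma n = k) X)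
      (NE := fun X k => count (fun n => InClass m W a n ∧ sigma n = k) X) hρ0.le hρ1 hC hc0 hs hlev
      (Ψ := fun X k => Ψ (Real.logb 3 (X / 2 ^ k))) hll B ε hε

end Pool.Agent.Results.MP_a1568a_nt.DigitClassesTimes
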