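import Pool.Agent.R468.GL.Inst
import Pool.Agent.Run7.h792.FL.Share
import Pool.Agent.Run7.h792.FL.Plain

set_option autoImplicit false

/-!
# Total stopping times in sets of residues to large moduli

Fix `0 < ε < 1`. At the scale `N`, the total stopping times of the `n ≤ N` are independent, with a power
saving which is uniform in the set of values, of every function of `n` modulo an odd `q` between `N ^ ε` and
`N ^ (1 - ε)` whose Fourier coefficients at the nonzero frequencies are at most `q ^ (1 / 2 + η)`. So one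
such set of residues at infinitely many scales, for example the quadratic residues modulo a prime between
`N ^ ε` and `N ^ (1 - ε)`, decides about the bound `σ(n) ≤ B log n`: if it holds there, all positive integers
reach `1`, and at most `O(N ^ (1 - c))` of all integers `n ≤ N` are exceptions.

Method: the dispersion argument of `Pool.Agent.Run7.h439.DC.Orth` at a level which is a small proportion of
`log q`; the correlations of the function along the progressions modulo the powers of two are, up to `O(q)`,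
autocorrelations over whole periods, and the sum of the squares of the latter is bounded by Parseval.
-/

namespace Pool.Agent.Results.MP_a1568a_nt.FlatResidues

open Filter Topology

/-- the `3x+1` function -/
def T (n : ℕ) : ℕ := if n % 2 = 0 then n / 2 else (3 * n + 1) / 2

/-- the total stopping time, the least `k` with `T^k(n) = 1`, and `⊤ = ∞` if there is none -/
noncomputable def sigma (n : ℕ) : ℕ∞ := sInf {k : ℕ∞ | ∃ j : ℕ, T^[j] n = 1 ∧ k = j}

/-- `f` has period `q`, values of modulus at most `1`, and its Fourier coefficients at the nonzero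
frequencies have modulus at most `q ^ (1 / 2 + η)`. -/
structure Flat (q : ℕ) (η : ℝ) (f : ℕ → ℂ) : Prop where
  bounded : ∀ n, ‖f n‖ ≤ 1
  periodic : ∀ n, f (n + q) = f n
  fourier : ∀ h : ℕ, 0 < h → h < q →
    ‖∑ a ∈ Finset.range q, f a * Complex.exp (2 * Real.pi * Complex.I * (h * a) / q)‖ ≤ (q : ℝ) ^ (1 / 2 + η)

/-- the mean value of a function with period `q` -/
noncomputable def mean (q : ℕ) (f : ℕ → ℂ) : ℂ := (∑ a ∈ Finset.range q, f a) / q

/-- `A` is a subset of `{0, ..., q - 1}`, and the indicator function of the integers which are congruent to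
an element of `A` modulo `q` is `Flat`. -/
def FlatSet (q : ℕ) (η : ℝ) (A : Finset ℕ) : Prop :=
  A ⊆ Finset.range q ∧ Flat q η (fun n => if n % q ∈ A then 1 else 0)

/-- `q` is odd and `N ^ ε ≤ q ≤ N ^ (1 - ε)`. -/
def InRange (ε : ℝ) (N q : ℕ) : Prop := Odd q ∧ (N : ℝ) ^ ε ≤ q ∧ (q : ℝ) ≤ (N : ℝ) ^ (1 - ε)

/-- the number of the `n` with `1 ≤ n ≤ X` and the property `P` -/
noncomputable def count (P : ℕ → Prop) (X : ℕ) : ℝ := ({n : ℕ | 1 ≤ n ∧ n ≤ X ∧ P n}.ncard : ℝ)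

/-- `n` is an exception to `σ(n) ≤ B log n`. -/
def Slow (B : ℝ) (n : ℕ) : Prop := ¬ ∃ t : ℕ, sigma n = t ∧ (t : ℝ) ≤ B * Real.log n

/-- the constant `2 / log (4/3)` of the mean value -/
noncomputable def μ : ℝ := 2 / Real.log (4 / 3)

open Pool.Agent.H499R2.HL Pool.Agent.Y965.PL Pool.Agent.Run7.h792.FL
open Pool.Agent.Run7.h439.DC (ind_and gn)

theorem T_eq : T = Pool.Agent.H499R2.ND.Tn := by funext a; rfl

theorem sigma_eq {n k : ℕ} (h : H k n) : sigma n = k := by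
  unfold sigma
  rw [T_eq]
  apply le_antisymm
  · exact sInf_le ⟨k, h.1, rfl⟩
  · refine le_sInf ?_
    rintro j ⟨i, hi, rfl⟩
    have : k ≤ i := by
      by_contra hlt
      exact h.2 i (by omega) hi
    exact_mod_cast this

theorem sigma_top {n : ℕ} (h : ¬ ∃ k, H k n) : sigma n = ⊤ := by
  unfold sigma
  rw [T_eq]
  have : {k : ℕ∞ | ∃ j : ℕ, Pool.Agent.H499R2.ND.Tn^[j] n = 1 ∧ k = j} = ∅ := by
    rw [Set.eq_empty_iff_forall_notMem]
    rintro k ⟨j, hj, _⟩
    exact h (H_iff_ex.2 ⟨j, hj⟩)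
  rw [this, sInf_empty]

theorem sigma_ne_top {n : ℕ} : sigma n ≠ ⊤ ↔ ∃ k, H k n := by
  constructor
  · intro h
    by_contra hcon
    exact h (sigma_top hcon)
  · rintro ⟨k, hk⟩
    rw [sigma_eq hk]
    exact ENat.natCast_ne_top k

theorem sigma_iff {n k : ℕ} : sigma n = k ↔ H k n := by
  constructor
  · intro h
    obtain ⟨k', hk'⟩ := sigma_ne_top.1 (show sigma n ≠ ⊤ by rw [h]; exact ENat.natCast_ne_top k)
    have h1 := sigma_eq hk'
    rw [h] at h1
    have h2 : k = k' := by exact_mod_cast h1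
    rw [h2]; exact hk'
  · exact sigma_eq

theorem slow_iff (B : ℝ) (n : ℕ) : Slow B n ↔ Pool.Agent.Run7.h439.DC.Slow B n := by
  unfold Slow Pool.Agent.Run7.h439.DC.Slow
  simp only [sigma_iff]

theorem count_ind (P : ℕ → Prop) (X : ℕ) : count P X = ∑ n ∈ Finset.Icc 1 X, ind P n := by
  classical
  unfold ind count
  rw [Finset.sum_boole]
  have e : {n : ℕ | 1 ≤ n ∧ n ≤ X ∧ P n} = ((Finset.Icc 1 X).filter fun n => P n : Finset ℕ) := by
    ext n
    simp only [Set.mem_ofPred_eq, Finset.coe_filter, Finset.mem_Icc, and_assoc]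
  rw [e, Set.ncard_coe_finset]

/-- TOTAL STOPPING TIMES IN SETS OF RESIDUES TO LARGE MODULI. For every `0 < ε < 1` there are `η`, `c`, `K > 0`
with the following properties; `N ≥ 1`, and `q` is odd with `N ^ ε ≤ q ≤ N ^ (1 - ε)`.

(1) (Uniform transfer.) For every `f` with period `q` and modulus at most `1` whose Fourier coefficients at
the nonzero frequencies are at most `q ^ (1 / 2 + η)`, for every set `S` of values and all `X ≤ N` the sum of
`f(n)` minus the mean value of `f` over the `n ≤ X` with `σ(n) ∈ S` has modulus at most `K N ^ (1 - c)`.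

(2) For every flat set `A` of residues modulo `q` and all `B ≥ 0`, `X ≤ N` the number of the `n ≤ X` in the
classes of `A` which are exceptions to `σ(n) ≤ B log n` is `|A| / q` times the number of all such exceptions,
up to `K (B + 1) N ^ (1 - c)`.

(3) Let `B ≥ 0`, `v ≥ 0`, `|A| ≥ q N ^ (-v)`. If `σ(n) ≤ B log n` for all `n ≤ N` in the classes of `A`, then at most
`K (B + 1) N ^ (1 - c + v)` of all `n ≤ N` are exceptions. If there are such `q` and `A` for infinitely many `N`,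
with some fixed `B` and `v < c`, then all positive integers have finite total stopping time.

(4) (Equal shares on the levels.) For every `B` there are `K'` and `N₀` such that for `N ≥ N₀` and
`|k - μ log N| ≤ B √(log N)` there are integers `n ≤ N` with `σ(n) = k`, and for all `q` and all flat `A` the
proportion of those in the classes of `A` is `|A| / q` up to `K' N ^ (-c)`.

(5) (Examples.) The hypothesis on `f` holds for the primitive Dirichlet characters modulo `q`, for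
`exp (2 π i (a n ^ 2 + b n) / q)` with `a` coprime to `q`, and the hypothesis on `A` holds if `q = p` is prime and `A`
is invariant under multiplication by the `k`-th powers coprime to `p`, where `k + 1 ≤ p ^ (2 η)`. -/
theorem result : ∀ ε : ℝ, 0 < ε → ε < 1 → ∃ η c K : ℝ, 0 < η ∧ 0 < c ∧ c < 1 ∧ 0 < K ∧
    (∀ N q : ℕ, 1 ≤ N → InRange ε N q → ∀ f : ℕ → ℂ, Flat q η f → ∀ S : Set ℕ∞, ∀ X : ℕ, X ≤ N →
      ‖∑ᶠ n ∈ {n : ℕ | 1 ≤ n ∧ n ≤ X ∧ sigma n ∈ S}, (f n - mean q f)‖ ≤ K * (N : ℝ) ^ (1 - c)) ∧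
    (∀ N q : ℕ, 1 ≤ N → InRange ε N q → ∀ A : Finset ℕ, FlatSet q η A → ∀ B : ℝ, 0 ≤ B → ∀ X : ℕ, X ≤ N →
      |count (fun n => n % q ∈ A ∧ Slow B n) X - (A.card / q : ℝ) * count (Slow B) X| ≤
        K * (B + 1) * (N : ℝ) ^ (1 - c)) ∧
    (∀ N q : ℕ, 1 ≤ N → InRange ε N q → ∀ A : Finset ℕ, FlatSet q η A → ∀ B v : ℝ, 0 ≤ B → 0 ≤ v →
      (q : ℝ) * (N : ℝ) ^ (-v) ≤ A.card → (∀ n : ℕ, 1 ≤ n → n ≤ N → n % q ∈ A → ¬ Slow B n) →
      count (Slow B) N ≤ K * (B + 1) * (N : ℝ) ^ (1 - c + v)) ∧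
    (∀ B v : ℝ, 0 ≤ B → 0 ≤ v → v < c → (∃ᶠ N : ℕ in atTop, ∃ q : ℕ, InRange ε N q ∧ ∃ A : Finset ℕ,
      FlatSet q η A ∧ (q : ℝ) * (N : ℝ) ^ (-v) ≤ A.card ∧
      ∀ n : ℕ, 1 ≤ n → n ≤ N → n % q ∈ A → ¬ Slow B n) → ∀ n : ℕ, 1 ≤ n → sigma n ≠ ⊤) ∧
    (∀ B : ℝ, ∃ (K' : ℝ) (N₀ : ℕ), ∀ N : ℕ, N₀ ≤ N → ∀ k : ℕ,
      |(k : ℝ) - μ * Real.log N| ≤ B * Real.sqrt (Real.log N) →
      0 < count (fun n => sigma n = k) N ∧ ∀ q : ℕ, InRange ε N q → ∀ A : Finset ℕ, FlatSet q η A →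
      |count (fun n => n % q ∈ A ∧ sigma n = k) N / count (fun n => sigma n = k) N - A.card / q| ≤
        K' * (N : ℝ) ^ (-c)) ∧
    (∀ (q : ℕ) (χ : DirichletCharacter ℂ q), 1 ≤ q → χ.IsPrimitive → Flat q η (fun n => χ n)) ∧
    (∀ (q : ℕ) (a b : ℤ), Odd q → IsCoprime a q →
      Flat q η (fun n => Complex.exp (2 * Real.pi * Complex.I * (a * n ^ 2 + b * n) / q))) ∧
    (∀ p k : ℕ, p.Prime → 1 ≤ k → (k : ℝ) + 1 ≤ (p : ℝ) ^ (2 * η) → ∀ A : Finset ℕ, A ⊆ Finset.range p →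
      (∀ b : ℕ, Nat.Coprime b p → ∀ a ∈ A, b ^ k * a % p ∈ A) → FlatSet p η A) := by
  classical
  intro ε hε hε1
  obtain ⟨δ, Ψ, hδ0, hδ1, h2, h3, hΨc, hΨp, hΨb, -, hlaw⟩ := Pool.Agent.R468.GL.law_T
  have hν := nu_pos'
  have hall : δ = 1 ↔ ∀ n : ℕ, 1 ≤ n → sigma n ≠ ⊤ := by
    rw [h2]
    refine forall₂_congr fun n _ => ?_
    rw [sigma_ne_top, H_iff_ex]
  obtain ⟨δ', hδ', h2'', h3'⟩ := nat1
  have hall' : δ' = 1 ↔ ∀ n : ℕ, 1 ≤ n → sigma n ≠ ⊤ := by
    rw [h2'']
    refine forall₂_congr fun n _ => ?_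
    rw [sigma_ne_top, H_iff_ex]
  obtain ⟨η, c, C, hη, hc0, hc1, hC, S₀⟩ := tsa hε hε1
  have hFl : ∀ {q : ℕ} {f : ℕ → ℂ}, Flat q η f → FlatP q η f := fun h => ⟨h.1, h.2, h.3⟩
  have hlF : ∀ {q : ℕ} {f : ℕ → ℂ}, FlatP q η f → Flat q η f := fun h => ⟨h.1, h.2, h.3⟩
  have hFs : ∀ {q : ℕ} {A : Finset ℕ}, FlatSet q η A → FlatI q η A := fun h => ⟨h.1, hFl h.2⟩
  set K : ℝ := 3 * C * (1 + 2 / c) + C + 1 with hK
  have hKa : C ≤ K := by
    rw [hK]
    have : 0 ≤ 3 * C * (1 + 2 / c) := by positivity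
    linarith
  have hKb : 3 * C * (1 + 2 / c) ≤ K := by rw [hK]; linarith
  have hK0 : 0 < K := by rw [hK]; positivity
  have hcnt : ∀ (E P : ℕ → Prop) (X : ℕ), count (fun n => E n ∧ P n) X = ∑ n ∈ Finset.Icc 1 X, ind E n * ind P n := by
    intro E P X
    rw [count_ind]
    apply Finset.sum_congr rfl
    intro n _
    exact ind_and _ _ n
  have hpow : ∀ N : ℕ, 1 ≤ N → (N : ℝ) ^ (1 - c) ≤ (N : ℝ) ^ (1 - c / 2) := by
    intro N hN
    exact Real.rpow_le_rpow_of_exponent_le (by exact_mod_cast hN) (by linarith)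
  have hrho : ∀ {N q : ℕ} {A : Finset ℕ} {v : ℝ}, Odd q → (q : ℝ) * (N : ℝ) ^ (-v) ≤ A.card → (N : ℝ) ^ (-v) ≤ (A.card / q : ℝ) := by
    intro N q A v hq h
    have hq0 : 0 < q := hq.pos
    have hqr : (0 : ℝ) < q := by exact_mod_cast hq0
    rw [le_div_iff₀ hqr]
    linarith
  have hslow : ∀ N q : ℕ, 1 ≤ N → InRange ε N q → ∀ A : Finset ℕ, FlatSet q η A → ∀ B : ℝ, 0 ≤ B → ∀ X : ℕ, X ≤ N →
      |count (fun n => n % q ∈ A ∧ Slow B n) X - (A.card / q : ℝ) * count (Slow B) X| ≤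
        K * (B + 1) * (N : ℝ) ^ (1 - c / 2) := by
    intro N q hN hq A hA B hB X hX
    rw [hcnt, count_ind]
    have e : ind (Slow B) = ind (Pool.Agent.Run7.h439.DC.Slow B) := by
      funext n; exact ind_congr (slow_iff B n)
    rw [e]
    have h := ((S₀.set hN hq.1 hq.2.1 hq.2.2 (hFs hA)).1).slow hC hc0 hB hN hX
    refine h.trans ?_
    gcongr
  have hfg : ∀ S : Set ℕ∞, ∀ n, Fg (fun k _ => if (k : ℕ∞) ∈ S then 1 else 0) (if (⊤ : ℕ∞) ∈ S then 1 else 0) n =
        ind (fun n => sigma n ∈ S) n := by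
    intro S n
    by_cases h : ∃ k, H k n
    · obtain ⟨k, hk⟩ := h
      rw [Fg_H hk]
      by_cases h4 : (k : ℕ∞) ∈ S
      · rw [if_pos h4, ind_pos (P := fun n => sigma n ∈ S) (by rw [sigma_eq hk]; exact h4)]
      · rw [if_neg h4, ind_neg (P := fun n => sigma n ∈ S) (by rw [sigma_eq hk]; exact h4)]
    · rw [Fg_not h]
      by_cases h4 : (⊤ : ℕ∞) ∈ S
      · rw [if_pos h4, ind_pos (P := fun n => sigma n ∈ S) (by rw [sigma_top h]; exact h4)]
      · rw [if_neg h4, ind_neg (P := fun n => sigma n ∈ S) (by rw [sigma_top h]; exact h4)]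
  refine ⟨η, c / 2, K, hη, by linarith, by linarith, hK0, ?_, hslow, ?_, ?_, ?_, ?_, ?_, ?_⟩
  · intro N q hN hq f hf S X hX
    have h1 := async_Fg (g := fun k _ => if (k : ℕ∞) ∈ S then 1 else 0) (g0 := if (⊤ : ℕ∞) ∈ S then 1 else 0)
      (fun _ _ => by split_ifs <;> simp) (by split_ifs <;> simp)
    have h4 := (S₀.fun hN hq.1 hq.2.1 hq.2.2 (hFl hf) h1 hX).1
    simp only [Int.toNat_natCast, hfg] at h4
    have e : ∑ᶠ n ∈ {n : ℕ | 1 ≤ n ∧ n ≤ X ∧ sigma n ∈ S}, (f n - mean q f) =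
        ∑ n ∈ Finset.Icc 1 X, ((ind (fun n => sigma n ∈ S) n : ℝ) : ℂ) * (f n - meanP q f) := by
      rw [finsum_mem_eq_finite_toFinset_sum _ ((Set.finite_Iic X).subset fun n hn => hn.2.1)]
      have e : ((Set.finite_Iic X).subset fun n (hn : n ∈ {n : ℕ | 1 ≤ n ∧ n ≤ X ∧ sigma n ∈ S}) => hn.2.1).toFinset
          = (Finset.Icc 1 X).filter (fun n => sigma n ∈ S) := by
        ext n
        simp only [Set.Finite.mem_toFinset, Set.mem_ofPred_eq, Finset.mem_filter, Finset.mem_Icc, and_assoc]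
      rw [e, Finset.sum_filter]
      apply Finset.sum_congr rfl
      intro n _
      by_cases h : sigma n ∈ S
      · rw [if_pos h, ind_pos (P := fun n => sigma n ∈ S) h, Complex.ofReal_one, one_mul]; rfl
      · rw [if_neg h, ind_neg (P := fun n => sigma n ∈ S) h, Complex.ofReal_zero, zero_mul]
    rw [e]
    refine h4.trans ?_
    exact mul_le_mul hKa (hpow N hN) (by positivity) (hC.trans hKa)
  · intro N q hN hq A hA B v hB hv hcard hno
    have h5 := hslow N q hN hq A hA B hB N le_rfl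
    have h6 : count (fun n => n % q ∈ A ∧ Slow B n) N = 0 := by
      unfold count
      have : {n : ℕ | 1 ≤ n ∧ n ≤ N ∧ n % q ∈ A ∧ Slow B n} = ∅ := by
        rw [Set.eq_empty_iff_forall_notMem]
        rintro n ⟨a1, a2, a3, a4⟩
        exact hno n a1 a2 a3 a4
      rw [this, Set.ncard_empty, Nat.cast_zero]
    rw [h6] at h5
    have h7 := (abs_le.1 h5).1
    have hN0 : (0 : ℝ) < N := by exact_mod_cast hN
    have hρ := hrho (v := v) hq.1 hcard
    have hc0' : 0 ≤ count (Slow B) N := by unfold count; positivity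
    have h8 : (N : ℝ) ^ (-v) * count (Slow B) N ≤ K * (B + 1) * (N : ℝ) ^ (1 - c / 2) := by
      have := mul_le_mul_of_nonneg_right hρ hc0'
      linarith
    have h9 : (N : ℝ) ^ v * ((N : ℝ) ^ (-v) * count (Slow B) N) ≤ (N : ℝ) ^ v * (K * (B + 1) * (N : ℝ) ^ (1 - c / 2)) :=
      mul_le_mul_of_nonneg_left h8 (by positivity)
    have e1 : (N : ℝ) ^ v * ((N : ℝ) ^ (-v) * count (Slow B) N) = count (Slow B) N := by
      rw [← mul_assoc, ← Real.rpow_add hN0, add_neg_cancel, Real.rpow_zero, one_mul]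
    have e2 : (N : ℝ) ^ v * (K * (B + 1) * (N : ℝ) ^ (1 - c / 2)) = K * (B + 1) * (N : ℝ) ^ (1 - c / 2 + v) := by
      rw [Real.rpow_add hN0]; ring
    rw [e1, e2] at h9
    exact h9
  · intro B v hB hv0 hv hfreq
    have hδ1' : δ' = 1 := by
      by_contra hne
      have hlt : δ' < 1 := lt_of_le_of_ne hδ'.le hne
      have hd := dens (Mn_inf hδ'.fin) (C := C) (show v < c by linarith) (show 0 < (1 - δ') / 2 by linarith)
      obtain ⟨N₀, hN₀⟩ := hd.exists_forall_of_atTop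
      obtain ⟨N, ⟨q, hq, A, hA, hcard, hno⟩, hN⟩ := (hfreq.and_eventually (eventually_ge_atTop (max N₀ 1))).exists
      have hN1 : 1 ≤ N := (le_max_right _ _).trans hN
      have h5 := hN₀ N ((le_max_left _ _).trans hN) (fun n => n % q ∈ A) (A.card / q) (hrho hq.1 hcard)
        (((S₀.set hN1 hq.1 hq.2.1 hq.2.2 (hFs hA)).1).fg (by simp) (by simp))
      have h6 : ∑ n ∈ Finset.Icc 1 N, ind (fun n => n % q ∈ A) n * Fg (fun _ _ => 0) 1 n = 0 := by
        apply Finset.sum_eq_zero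
        intro n hn
        rw [Finset.mem_Icc] at hn
        by_cases h7 : n % q ∈ A
        · have h8 := hno n hn.1 hn.2 h7
          unfold Slow at h8
          rw [not_not] at h8
          obtain ⟨t, ht, _⟩ := h8
          rw [Fg_H (sigma_iff.1 ht), mul_zero]
        · rw [ind_neg (P := fun n => n % q ∈ A) h7, zero_mul]
      rw [h6] at h5
      have hN1' : (1 : ℝ) ≤ N := by exact_mod_cast hN1
      have hρ := hrho (v := v) hq.1 hcard
      have hρ0 : 0 < (A.card / q : ℝ) := lt_of_lt_of_le (by positivity) hρ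
      have h7 : 0 < (A.card / q : ℝ) * N := by positivity
      have h8 := (abs_le.1 h5).1
      nlinarith
    exact hall'.1 hδ1'
  · intro B
    set σ2 : ℝ := 2 * Real.log 3 ^ 2 / Real.log (4 / 3) ^ 3 with hσ2
    have hs : 0 < σ2 := by
      have : 0 < Real.log 3 := Real.log_pos (by norm_num)
      rw [hσ2]; positivity
    have hll : ∀ K ε : ℝ, 0 < ε → ∃ X₀ : ℝ, ∀ X : ℕ, X₀ ≤ X → ∀ k : ℕ,
        |(k : ℝ) - μ * Real.log X| ≤ K * Real.sqrt (Real.log X) →
        |count (fun n => sigma n = k) X / (X * gn μ σ2 X k) - Ψ (Real.logb 3 (X / 2 ^ k))| ≤ ε := by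
      intro K ε hε
      obtain ⟨X₀, hX₀⟩ := hlaw K ε hε
      refine ⟨X₀, fun X hX k hk => ?_⟩
      have h4 := hX₀ X hX k hk
      have e : count (fun n => sigma n = k) X = ({n : ℕ | 1 ≤ n ∧ (n : ℝ) ≤ (X : ℝ) ∧
          (Pool.Agent.H499R2.ND.Tn^[k] n = 1 ∧ ∀ i < k, Pool.Agent.H499R2.ND.Tn^[i] n ≠ 1)}.ncard : ℝ) := by
        unfold count
        congr 2
        ext n
        simp only [Set.mem_ofPred_eq, sigma_iff, Nat.cast_le]
        rfl
      rw [e]
      exact h4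
    obtain ⟨K', X₀, hK'0, h4⟩ := share (M := fun X k => count (fun n => sigma n = k) X) (c := c) hC hc0 hs
      (p := δ * (Real.log 3 / 2)) (by
        have : 0 < Real.log 3 := Real.log_pos (by norm_num)
        positivity) (Ψ := fun X k => Ψ (Real.logb 3 (X / 2 ^ k))) (fun X k => (hΨb _).1) hll B
    refine ⟨K', max X₀ 1, fun N hN k hk => ?_⟩
    obtain ⟨h5, h6⟩ := h4 N ((le_max_left _ _).trans hN) k hk
    have hN1 : 1 ≤ N := (le_max_right _ _).trans hN
    refine ⟨h5, fun q hq A hA => ?_⟩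
    refine h6 _ _ ?_
    obtain ⟨S', hS'⟩ : ∃ S' : Set ℕ∞, S' = {(k : ℕ∞)} := ⟨_, rfl⟩
    have h7 := (((S₀.set hN1 hq.1 hq.2.1 hq.2.2 (hFs hA)).1).fg (g := fun k' _ => if (k' : ℕ∞) ∈ S' then 1 else 0)
      (g0 := if (⊤ : ℕ∞) ∈ S' then 1 else 0)
      (fun _ _ => by split_ifs <;> simp) (by split_ifs <;> simp)).tr N le_rfl
    simp only [hfg] at h7
    rw [hS'] at h7
    rw [hcnt, count_ind]
    exact h7
  · intro q χ hq hχ
    exact hlF (flatP_char hq hη.le hχ)
  · intro q a b hq hab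
    exact hlF (flatP_quad hη.le hq hab b)
  · intro p k hp hk hkp A hA h
    have h5 := flatI_pow hp hk hkp hA h
    exact ⟨h5.1, hlF h5.2⟩

end Pool.Agent.Results.MP_a1568a_nt.FlatResidues
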