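import Pool.Agent.Run7.h439.DC.LL
import Pool.Agent.Run7.h439.DC.Poly4
import Pool.Agent.R468.GL.Inst

set_option autoImplicit false

/-!
# Total stopping times and polynomials modulo one

A class consists of the integers `n` for which the fractional part of `p(n)` is in a given interval, where `p` is a
real polynomial of degree at least two whose leading coefficient is irrational and not a Liouville number. One such
class decides about Q1 up to a power saving exceptional set: if `σ(n) ≤ B log n` for all `n` of one class, then all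
total stopping times are finite and `σ(n) ≤ B log n` for all but `O(X ^ (1 - κ))` of all `n ≤ X`. More precisely the
exceptions have in every class their proportional share, up to `O(X ^ (1 - κ))`, and so has every set of values of
`σ`, uniformly in the set and in all coefficients but the leading one; in the central range even the single levels
`σ(n) = k` are equidistributed over the classes, with the same local limit law.

Method: a dispersion argument. For `n > 2 ^ t` the number `σ(n)` is a function of `T^t(n)` and the number of odd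
terms before it; for a given number of odd terms the integers `n ≤ N` with the same `T^t(n)` lie in a short interval
and are determined by their residue modulo `2 ^ t`, and along the progressions modulo `2 ^ t` the differences
`p(n + h) - p(n)` are polynomials of lower degree to which the inverse theorem for Weyl sums can be applied.
-/

namespace Pool.Agent.Results.MP_a1568a_nt.PolynomialClasses

open Filter Topology

/-- the `3x+1` function -/
def T (n : ℕ) : ℕ := if n % 2 = 0 then n / 2 else (3 * n + 1) / 2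

/-- the total stopping time, the least `k` with `T^k(n) = 1`, and `⊤ = ∞` if there is none -/
noncomputable def sigma (n : ℕ) : ℕ∞ := sInf {k : ℕ∞ | ∃ j : ℕ, T^[j] n = 1 ∧ k = j}

/-- `α` is irrational and not a Liouville number. -/
def Diophantine (α : ℝ) : Prop :=
  ∃ A c : ℝ, 0 < c ∧ ∀ l : ℕ, 1 ≤ l → ∀ a : ℤ, c * (l : ℝ) ^ (-A) ≤ |l * α - a|

/-- The data: a real polynomial `p` of degree `e` with leading coefficient `α`, and `0 ≤ u ≤ v ≤ 1`. -/
structure Data (e : ℕ) (α : ℝ) (p : Polynomial ℝ) (u v : ℝ) : Prop where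
  deg : p.natDegree ≤ e
  lead : p.coeff e = α
  nonneg : 0 ≤ u
  le : u ≤ v
  le_one : v ≤ 1

/-- the class: the fractional part of `p(n)` is in `[u, v)` -/
def InClass (p : Polynomial ℝ) (u v : ℝ) (n : ℕ) : Prop :=
  u ≤ Int.fract (p.eval (n : ℝ)) ∧ Int.fract (p.eval (n : ℝ)) < v

/-- the number of the `n` with `1 ≤ n ≤ X` and the property `P` -/
noncomputable def count (P : ℕ → Prop) (X : ℕ) : ℝ := ({n : ℕ | 1 ≤ n ∧ n ≤ X ∧ P n}.ncard : ℝ)

/-- `n` is an exception to `σ(n) ≤ B log n`. -/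
def Slow (B : ℝ) (n : ℕ) : Prop := ¬ ∃ t : ℕ, sigma n = t ∧ (t : ℝ) ≤ B * Real.log n

/-- the constant `2 / log (4/3)` of the mean value -/
noncomputable def μ : ℝ := 2 / Real.log (4 / 3)

/-- the constant of the variance -/
noncomputable def σ2 : ℝ := 2 * Real.log 3 ^ 2 / Real.log (4 / 3) ^ 3

/-- the value at `k` of the density of the normal distribution of mean `μ log X` and variance
`σ2 log X` -/
noncomputable def g (X k : ℕ) : ℝ :=
  Real.exp (-(((k : ℝ) - μ * Real.log X) ^ 2 / (2 * (σ2 * Real.log X)))) /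
    Real.sqrt (2 * Real.pi * (σ2 * Real.log X))

open Pool.Agent.H499R2.HL Pool.Agent.Y965.PL
open Pool.Agent.Run7.h439.DC (CTA PD Ep Rs Fg_Rs cta_poly ind_and loc_law loc_share gn)

theorem T_eq : T = Pool.Agent.H499R2.ND.Tn := by funext a; rfl

theorem sigma_eq {n k : ℕ} (h : H k n) : sigma n = k := by
  unfold sigma
  rw [T_eq]
  apply le_antisymm
  · exact sInf_le ⟨k, h.1, rfl⟩
  · refine le_sInf ?_
    rintro j ⟨i, hi, rfl⟩
    have : k ≤ i := by
      by_contra hlt
      exact h.2 i (by omega) hi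
    exact_mod_cast this

theorem sigma_top {n : ℕ} (h : ¬ ∃ k, H k n) : sigma n = ⊤ := by
  unfold sigma
  rw [T_eq]
  have : {k : ℕ∞ | ∃ j : ℕ, Pool.Agent.H499R2.ND.Tn^[j] n = 1 ∧ k = j} = ∅ := by
    rw [Set.eq_empty_iff_forall_notMem]
    rintro k ⟨j, hj, _⟩
    exact h (H_iff_ex.2 ⟨j, hj⟩)
  rw [this, sInf_empty]

theorem sigma_ne_top {n : ℕ} : sigma n ≠ ⊤ ↔ ∃ k, H k n := by
  constructor
  · intro h
    by_contra hcon
    exact h (sigma_top hcon)
  · rintro ⟨k, hk⟩
    rw [sigma_eq hk]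
    exact ENat.natCast_ne_top k

theorem sigma_iff {n k : ℕ} : sigma n = k ↔ H k n := by
  constructor
  · intro h
    obtain ⟨k', hk'⟩ := sigma_ne_top.1 (show sigma n ≠ ⊤ by rw [h]; exact ENat.natCast_ne_top k)
    have h1 := sigma_eq hk'
    rw [h] at h1
    have h2 : k = k' := by exact_mod_cast h1
    rw [h2]; exact hk'
  · exact sigma_eq

theorem slow_iff (B : ℝ) (n : ℕ) : Slow B n ↔ Pool.Agent.Run7.h439.DC.Slow B n := by
  unfold Slow Pool.Agent.Run7.h439.DC.Slow
  simp only [sigma_iff]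

theorem count_ind (P : ℕ → Prop) (X : ℕ) : count P X = ∑ n ∈ Finset.Icc 1 X, ind P n := by
  classical
  unfold ind count
  rw [Finset.sum_boole]
  have e : {n : ℕ | 1 ≤ n ∧ n ≤ X ∧ P n} = ((Finset.Icc 1 X).filter fun n => P n : Finset ℕ) := by
    ext n
    simp only [Set.mem_ofPred_eq, Finset.coe_filter, Finset.mem_Icc, and_assoc]
  rw [e, Set.ncard_coe_finset]

/-- TOTAL STOPPING TIMES IN THE CLASSES OF POLYNOMIALS. There are `0 < δ ≤ 1` (the density of the integers with
`σ(n) < ∞`, equal to `1` if and only if all are of this kind) and a continuous function `Ψ` of period `1`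
with `δ (log 3) / 2 ≤ Ψ ≤ 3 δ (log 3) / 2` such that for all `e ≥ 2` and all irrational `α` which are not Liouville
numbers there are `K` and `0 < c < 1` such that for every real polynomial `p` of degree `e` with leading
coefficient `α` and all `0 ≤ u ≤ v ≤ 1`, with the class of the `n` such that the fractional part of `p(n)` is in
`[u, v)` and with `ρ = v - u`:

(1) For every set `S` of values, every residue class `b` modulo `M` and all `X ≥ 1` the number of the `n ≤ X`,
`n ≡ b` modulo `M`, in the class with `σ(n) ∈ S` is `ρ` times the number of all `n ≤ X`, `n ≡ b` modulo `M`, with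
`σ(n) ∈ S`, up to `K X ^ (1 - c)`.

(2) For all `B ≥ 0` and `X ≥ 1` the number of the `n ≤ X` in the class which are exceptions to
`σ(n) ≤ B log n` is `ρ` times the number of all such exceptions, up to `K (B + 1) X ^ (1 - c)`.

(3) If `u < v` and for some `B ≥ 0` the class has at most `M X ^ (1 - c)` exceptions `n ≤ X` to `σ(n) ≤ B log n`,
for all `X ≥ 1` (for example none), then all positive integers have finite total stopping time, and at most
`M' X ^ (1 - c)` of all integers `n ≤ X` are exceptions.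

(4) (Equal shares on the levels.) For every `B` there are `K'` and `X₀` such that for `X ≥ X₀` and
`|k - μ log X| ≤ B √(log X)` there are integers `n ≤ X` with `σ(n) = k` and the proportion of those in the
class is `ρ` up to `K' X ^ (-c/2)`.

(5) (Local limit law.) The number of the `n ≤ X` in the class with `σ(n) = k`, divided by `X g(X, k)`, is
`ρ Ψ(log_3 (X / 2^k)) + o(1)`, uniformly for the `k` with `|k - μ log X| ≤ B √(log X)`, for every `B`. -/
theorem result : ∃ (δ : ℝ) (Ψ : ℝ → ℝ), 0 < δ ∧ δ ≤ 1 ∧ (δ = 1 ↔ ∀ n : ℕ, 1 ≤ n → sigma n ≠ ⊤) ∧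
    Tendsto (fun X : ℕ => count (fun n => sigma n ≠ ⊤) X / X) atTop (𝓝 δ) ∧
    Continuous Ψ ∧ (∀ s : ℝ, Ψ (s + 1) = Ψ s) ∧
    (∀ s : ℝ, δ * (Real.log 3 / 2) ≤ Ψ s ∧ Ψ s ≤ δ * (3 * Real.log 3 / 2)) ∧
    ∀ (e : ℕ) (α : ℝ), 2 ≤ e → Diophantine α →
    ∃ K c : ℝ, 0 < c ∧ c < 1 ∧ ∀ (p : Polynomial ℝ) (u v : ℝ), Data e α p u v →
    (∀ S : Set ℕ∞, ∀ M b X : ℕ, 1 ≤ M → 1 ≤ X →
      |count (fun n => n ≡ b [MOD M] ∧ InClass p u v n ∧ sigma n ∈ S) X -
        (v - u) * count (fun n => n ≡ b [MOD M] ∧ sigma n ∈ S) X| ≤ K * (X : ℝ) ^ (1 - c)) ∧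
    (∀ B : ℝ, 0 ≤ B → ∀ X : ℕ, 1 ≤ X →
      |count (fun n => InClass p u v n ∧ Slow B n) X - (v - u) * count (Slow B) X| ≤
        K * (B + 1) * (X : ℝ) ^ (1 - c)) ∧
    (∀ B M : ℝ, 0 ≤ B → u < v →
      (∀ X : ℕ, 1 ≤ X → count (fun n => InClass p u v n ∧ Slow B n) X ≤ M * (X : ℝ) ^ (1 - c)) →
      (∀ n : ℕ, 1 ≤ n → sigma n ≠ ⊤) ∧
      ∃ M' : ℝ, ∀ X : ℕ, 1 ≤ X → count (Slow B) X ≤ M' * (X : ℝ) ^ (1 - c)) ∧
    (∀ B : ℝ, ∃ (K' : ℝ) (X₀ : ℕ), ∀ X : ℕ, X₀ ≤ X → ∀ k : ℕ,
      |(k : ℝ) - μ * Real.log X| ≤ B * Real.sqrt (Real.log X) →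
      0 < count (fun n => sigma n = k) X ∧
      |count (fun n => InClass p u v n ∧ sigma n = k) X / count (fun n => sigma n = k) X - (v - u)| ≤
        K' * (X : ℝ) ^ (-(c / 2))) ∧
    ∀ B ε : ℝ, 0 < ε → ∃ X₀ : ℕ, ∀ X : ℕ, X₀ ≤ X → ∀ k : ℕ,
      |(k : ℝ) - μ * Real.log X| ≤ B * Real.sqrt (Real.log X) →
      |count (fun n => InClass p u v n ∧ sigma n = k) X / (X * g X k) -
        (v - u) * Ψ (Real.logb 3 (X / 2 ^ k))| ≤ ε := by
  classical
  obtain ⟨δ, Ψ, hδ0, hδ1, h2, h3, hΨc, hΨp, hΨb, -, hlaw⟩ := Pool.Agent.R468.GL.law_T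
  have hν := nu_pos'
  have hall : δ = 1 ↔ ∀ n : ℕ, 1 ≤ n → sigma n ≠ ⊤ := by
    rw [h2]
    refine forall₂_congr fun n _ => ?_
    rw [sigma_ne_top, H_iff_ex]
  have hdens : Tendsto (fun X : ℕ => count (fun n => sigma n ≠ ⊤) X / X) atTop (𝓝 δ) := by
    have h4 : Pool.Agent.H499R2.ND.Dn (fun n => sigma n ≠ ⊤) δ :=
      Pool.Agent.H499R2.LT.Dn_iff (fun n _ => by rw [sigma_ne_top, H_iff_ex]) h3
    exact h4
  refine ⟨δ, Ψ, hδ0, hδ1, hall, hdens, hΨc, hΨp, hΨb, fun e α he hα => ?_⟩
  obtain ⟨C, c, hC, hc0, hc1', hT⟩ := cta_poly (k := e - 1) (by omega) hα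
  have hc1 : c ≤ 1 := hc1'.le
  set K : ℝ := 3 * C * (1 + 2 / c) with hK
  have hCK : C ≤ K := by
    rw [hK]
    have : 0 ≤ 2 / c := by positivity
    nlinarith
  refine ⟨K, c / 2, by positivity, by linarith, fun p u v hD => ?_⟩
  have hPD : PD (e - 1) α p u v := by
    have e1 : e - 1 + 1 = e := by omega
    exact ⟨by rw [e1]; exact hD.deg, by rw [e1]; exact hD.lead, hD.nonneg, hD.le, hD.le_one⟩
  obtain ⟨hTR, hA, _⟩ := hT p u v hPD
  have hρ0' : 0 ≤ v - u := by linarith [hD.le]
  have hρ1 : v - u ≤ 1 := by linarith [hD.nonneg, hD.le_one]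
  set ρ : ℝ := v - u with hρ
  have hcl : ∀ n, InClass p u v n ↔ Ep p u v n := fun n => Iff.rfl
  have hcnt : ∀ (P : ℕ → Prop) (X : ℕ), count (fun n => InClass p u v n ∧ P n) X =
      ∑ n ∈ Finset.Icc 1 X, ind (Ep p u v) n * ind P n := by
    intro P X
    rw [count_ind]
    apply Finset.sum_congr rfl
    intro n _
    rw [← ind_and]
    exact ind_congr (and_congr (hcl n) Iff.rfl)
  -- values
  have hS : ∀ S : Set ℕ∞, ∀ X : ℕ, 1 ≤ X →
      |count (fun n => InClass p u v n ∧ sigma n ∈ S) X - ρ * count (fun n => sigma n ∈ S) X| ≤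
        C * (X : ℝ) ^ (1 - c) := by
    intro S X hX
    have h1 := (hA.fg (g := fun k _ => if (k : ℕ∞) ∈ S then 1 else 0) (g0 := if (⊤ : ℕ∞) ∈ S then 1 else 0)
      (fun _ _ => by split_ifs <;> simp) (by split_ifs <;> simp)).tr X hX
    have e : ∀ n, Fg (fun k _ => if (k : ℕ∞) ∈ S then 1 else 0) (if (⊤ : ℕ∞) ∈ S then 1 else 0) n =
        ind (fun n => sigma n ∈ S) n := by
      intro n
      by_cases h : ∃ k, H k n
      · obtain ⟨k, hk⟩ := h
        rw [Fg_H hk]
        by_cases h4 : (k : ℕ∞) ∈ S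
        · rw [if_pos h4, ind_pos (P := fun n => sigma n ∈ S) (by rw [sigma_eq hk]; exact h4)]
        · rw [if_neg h4, ind_neg (P := fun n => sigma n ∈ S) (by rw [sigma_eq hk]; exact h4)]
      · rw [Fg_not h]
        by_cases h4 : (⊤ : ℕ∞) ∈ S
        · rw [if_pos h4, ind_pos (P := fun n => sigma n ∈ S) (by rw [sigma_top h]; exact h4)]
        · rw [if_neg h4, ind_neg (P := fun n => sigma n ∈ S) (by rw [sigma_top h]; exact h4)]
    simp only [e] at h1
    rw [hcnt, count_ind]
    exact h1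
  have hSM : ∀ S : Set ℕ∞, ∀ M b X : ℕ, 1 ≤ M → 1 ≤ X →
      |count (fun n => n ≡ b [MOD M] ∧ InClass p u v n ∧ sigma n ∈ S) X -
        ρ * count (fun n => n ≡ b [MOD M] ∧ sigma n ∈ S) X| ≤ C * (X : ℝ) ^ (1 - c) := by
    intro S M b X hM hX
    have h1 := (Fg_Rs (hTR M b hM) (g := fun k _ => if (k : ℕ∞) ∈ S then 1 else 0) (g0 := if (⊤ : ℕ∞) ∈ S then 1 else 0)
      (fun _ _ => by split_ifs <;> simp) (by split_ifs <;> simp)).tr X hX
    have e : Fg (fun k _ => if (k : ℕ∞) ∈ S then 1 else 0) (if (⊤ : ℕ∞) ∈ S then 1 else 0) =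
        ind (fun n => sigma n ∈ S) := by
      funext n
      by_cases h : ∃ k, H k n
      · obtain ⟨k, hk⟩ := h
        rw [Fg_H hk]
        by_cases h4 : (k : ℕ∞) ∈ S
        · rw [if_pos h4, ind_pos (P := fun n => sigma n ∈ S) (by rw [sigma_eq hk]; exact h4)]
        · rw [if_neg h4, ind_neg (P := fun n => sigma n ∈ S) (by rw [sigma_eq hk]; exact h4)]
      · rw [Fg_not h]
        by_cases h4 : (⊤ : ℕ∞) ∈ S
        · rw [if_pos h4, ind_pos (P := fun n => sigma n ∈ S) (by rw [sigma_top h]; exact h4)]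
        · rw [if_neg h4, ind_neg (P := fun n => sigma n ∈ S) (by rw [sigma_top h]; exact h4)]
    rw [e] at h1
    have e1 : count (fun n => n ≡ b [MOD M] ∧ sigma n ∈ S) X =
        ∑ n ∈ Finset.Icc 1 X, Rs M b (ind (fun n => sigma n ∈ S)) n := by
      rw [count_ind]
      apply Finset.sum_congr rfl
      intro n _
      unfold Rs
      by_cases h : n % M = b % M
      · rw [if_pos h]
        exact ind_congr ⟨fun h' => h'.2, fun h' => ⟨h, h'⟩⟩
      · rw [if_neg h]
        exact ind_neg (fun h' => h h'.1)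
    have e2 : count (fun n => n ≡ b [MOD M] ∧ InClass p u v n ∧ sigma n ∈ S) X =
        ∑ n ∈ Finset.Icc 1 X, ind (Ep p u v) n * Rs M b (ind (fun n => sigma n ∈ S)) n := by
      rw [count_ind]
      apply Finset.sum_congr rfl
      intro n _
      unfold Rs
      by_cases h : n % M = b % M
      · rw [if_pos h, ← ind_and]
        exact ind_congr ⟨fun h' => h'.2, fun h' => ⟨h, h'⟩⟩
      · rw [if_neg h, mul_zero]
        exact ind_neg (fun h' => h h'.1)
    rw [e1, e2]
    exact h1
  have hpow : ∀ X : ℕ, 1 ≤ X → (X : ℝ) ^ (1 - c) ≤ (X : ℝ) ^ (1 - c / 2) := by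
    intro X hX
    exact Real.rpow_le_rpow_of_exponent_le (by exact_mod_cast hX) (by linarith)
  have hslow : ∀ B : ℝ, 0 ≤ B → ∀ X : ℕ, 1 ≤ X →
      |count (fun n => InClass p u v n ∧ Slow B n) X - ρ * count (Slow B) X| ≤ K * (B + 1) * (X : ℝ) ^ (1 - c / 2) := by
    intro B hB X hX
    rw [hcnt, count_ind]
    have e : ind (Slow B) = ind (Pool.Agent.Run7.h439.DC.Slow B) := by
      funext n; exact ind_congr (slow_iff B n)
    rw [e]
    exact hA.slow hC hc0 hc1 hB hX
  have hlev : ∀ X : ℕ, 1 ≤ X → ∀ k : ℕ, |count (fun n => InClass p u v n ∧ sigma n = k) X -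
      ρ * count (fun n => sigma n = k) X| ≤ C * (X : ℝ) ^ (1 - c) := by
    intro X hX k
    have := hS {(k : ℕ∞)} X hX
    simpa using this
  have hll : ∀ K ε : ℝ, 0 < ε → ∃ X₀ : ℝ, ∀ X : ℕ, X₀ ≤ X → ∀ k : ℕ,
      |(k : ℝ) - μ * Real.log X| ≤ K * Real.sqrt (Real.log X) →
      |count (fun n => sigma n = k) X / (X * gn μ σ2 X k) - Ψ (Real.logb 3 (X / 2 ^ k))| ≤ ε := by
    intro K ε hε
    obtain ⟨X₀, hX₀⟩ := hlaw K ε hε
    refine ⟨X₀, fun X hX k hk => ?_⟩
    have h4 := hX₀ X hX k hk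
    have e : count (fun n => sigma n = k) X = ({n : ℕ | 1 ≤ n ∧ (n : ℝ) ≤ (X : ℝ) ∧
        (Pool.Agent.H499R2.ND.Tn^[k] n = 1 ∧ ∀ i < k, Pool.Agent.H499R2.ND.Tn^[i] n ≠ 1)}.ncard : ℝ) := by
      unfold count
      congr 2
      ext n
      simp only [Set.mem_ofPred_eq, sigma_iff, Nat.cast_le]
      rfl
    rw [e]
    exact h4
  have hs : 0 < σ2 := by
    have : 0 < Real.log 3 := Real.log_pos (by norm_num)
    unfold σ2; positivity
  refine ⟨fun S M b X hM hX => ?_, hslow, ?_, ?_, ?_⟩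
  · refine (hSM S M b X hM hX).trans ?_
    exact mul_le_mul hCK (hpow X hX) (by positivity) (hC.trans hCK)
  · intro B M hB huv hM
    have hρ0 : 0 < ρ := by rw [hρ]; linarith
    constructor
    · rw [← hall]
      by_contra hne
      have hlt : 0 < 1 - δ := by
        have := lt_of_le_of_ne hδ1 hne
        linarith
      -- the infinite ones
      have h4 : ∀ X : ℕ, 1 ≤ X → ρ * (X - count (fun n => sigma n ≠ ⊤) X) ≤ (M + C) * (X : ℝ) ^ (1 - c / 2) := by
        intro X hX
        have h5 := hS {⊤} X hX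
        have h6 := hM X hX
        have h7 : count (fun n => InClass p u v n ∧ sigma n ∈ ({⊤} : Set ℕ∞)) X ≤
            count (fun n => InClass p u v n ∧ Slow B n) X := by
          rw [count_ind, count_ind]
          apply Finset.sum_le_sum
          intro n _
          apply ind_mono
          rintro ⟨g1, g2⟩
          refine ⟨g1, ?_⟩
          rintro ⟨t, ht, _⟩
          rw [Set.mem_singleton_iff] at g2
          rw [g2] at ht
          exact ENat.natCast_ne_top t ht.symm
        have h8 : count (fun n => sigma n ∈ ({⊤} : Set ℕ∞)) X = X - count (fun n => sigma n ≠ ⊤) X := by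
          rw [count_ind, count_ind, eq_sub_iff_add_eq, ← Finset.sum_add_distrib]
          have : ∀ n ∈ Finset.Icc 1 X, ind (fun n => sigma n ∈ ({⊤} : Set ℕ∞)) n + ind (fun n => sigma n ≠ ⊤) n = 1 := by
            intro n _
            by_cases h9 : sigma n = ⊤
            · rw [ind_pos (P := fun n => sigma n ∈ ({⊤} : Set ℕ∞)) h9, ind_neg (P := fun n => sigma n ≠ ⊤) (fun h => h h9),
                add_zero]
            · rw [ind_neg (P := fun n => sigma n ∈ ({⊤} : Set ℕ∞)) h9, ind_pos (P := fun n => sigma n ≠ ⊤) h9, zero_add]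
          rw [Finset.sum_congr rfl this]
          simp
        rw [h8] at h5
        have h9 := (abs_le.1 h5).1
        have h10 := mul_le_mul_of_nonneg_left (hpow X hX) hC
        linarith
      have h5 : Tendsto (fun X : ℕ => (M + C) * (X : ℝ) ^ (-(c / 2))) atTop (𝓝 0) := by
        have g1 := (tendsto_rpow_neg_atTop (show 0 < c / 2 by positivity)).comp tendsto_natCast_atTop_atTop
        have g2 := g1.const_mul (M + C)
        rw [mul_zero] at g2
        exact g2
      have h6 : Tendsto (fun X : ℕ => ρ * (1 - count (fun n => sigma n ≠ ⊤) X / X)) atTop (𝓝 (ρ * (1 - δ))) :=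
        (tendsto_const_nhds.sub hdens).const_mul ρ
      have h7 : ρ * (1 - δ) ≤ 0 := by
        refine le_of_tendsto_of_tendsto h6 h5 ?_
        filter_upwards [eventually_ge_atTop 1] with X hX
        have hX0 : (0 : ℝ) < X := by exact_mod_cast hX
        have h8 := h4 X hX
        have e : (X : ℝ) ^ (1 - c / 2) = (X : ℝ) ^ (-(c / 2)) * X := by
          rw [sub_eq_neg_add, Real.rpow_add hX0, Real.rpow_one]
        rw [e] at h8
        have e2 : ρ * (1 - count (fun n => sigma n ≠ ⊤) X / X) * X = ρ * (X - count (fun n => sigma n ≠ ⊤) X) := by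
          field_simp
        have h9 : ρ * (1 - count (fun n => sigma n ≠ ⊤) X / X) * X ≤ (M + C) * (X : ℝ) ^ (-(c / 2)) * X := by
          rw [e2]; linarith
        exact le_of_mul_le_mul_right h9 hX0
      have := mul_pos hρ0 hlt
      linarith
    · refine ⟨(M + K * (B + 1)) / ρ, fun X hX => ?_⟩
      have h5 := (abs_le.1 (hslow B hB X hX)).1
      have h6 := hM X hX
      rw [div_mul_eq_mul_div, le_div_iff₀ hρ0]
      linarith
  · intro B
    obtain ⟨K', X₀, h4⟩ := loc_share (N := fun X k => count (fun n => sigma n = k) X)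
      (NE := fun X k => count (fun n => InClass p u v n ∧ sigma n = k) X) (ρ := ρ) hC hc0 hs
      (p := δ * (Real.log 3 / 2)) (by
        have : 0 < Real.log 3 := Real.log_pos (by norm_num)
        positivity) hlev (Ψ := fun X k => Ψ (Real.logb 3 (X / 2 ^ k))) (fun X k => (hΨb _).1) hll B
    refine ⟨|K'|, max X₀ 1, fun X hX k hk => ?_⟩
    obtain ⟨h5, h6⟩ := h4 X ((le_max_left _ _).trans hX) k hk
    refine ⟨h5, h6.trans ?_⟩
    have hX1 : (1 : ℝ) ≤ X := by exact_mod_cast (le_max_right _ _).trans hX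
    have h7 : (X : ℝ) ^ (-(c / 2)) ≤ (X : ℝ) ^ (-(c / 2 / 2)) :=
      Real.rpow_le_rpow_of_exponent_le hX1 (by linarith)
    exact mul_le_mul (le_abs_self _) h7 (by positivity) (abs_nonneg _)
  · intro B ε hε
    exact loc_law (N := fun X k => count (fun n => sigma n = k) X)
      (NE := fun X k => count (fun n => InClass p u v n ∧ sigma n = k) X) hρ0' hρ1 hC hc0 hs hlev
      (Ψ := fun X k => Ψ (Real.logb 3 (X / 2 ^ k))) hll B ε hε

end Pool.Agent.Results.MP_a1568a_nt.PolynomialClasses
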