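import Mathlib
import Pool.Agent.Run7.h145.QL.L2
import Pool.Agent.Run7.h145.QL.X

set_option autoImplicit false

/-!
Logarithmic bounds for the total stopping time of the `3x+1` function along the values of quadratic
polynomials in several variables.

The values (for example the sums of two squares) have density zero or large multiplicities; all statements
count the points of a box at which the value has the property.
-/

namespace Pool.Agent.Results.MP_a1568a_nt.QuadraticValues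

open Filter Topology Finset

/-- the `3x+1` function -/
def T (n : ℕ) : ℕ := if n % 2 = 0 then n / 2 else (3 * n + 1) / 2

/-- `t` is the total stopping time of `n` -/
def IsTotalStoppingTime (n t : ℕ) : Prop := T^[t] n = 1 ∧ ∀ j < t, T^[j] n ≠ 1

/-- the number of odd terms among `n, T n, ..., T^(k-1) n` -/
def odds (k n : ℕ) : ℕ := ((Finset.range k).filter fun i => T^[i] n % 2 = 1).card

/-- the positive integers with the property `P` have the natural density `δ` -/
def HasDensity (P : ℕ → Prop) (δ : ℝ) : Prop :=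
  Tendsto (fun N : ℕ => ({n : ℕ | 1 ≤ n ∧ n ≤ N ∧ P n}.ncard : ℝ) / N) atTop (𝓝 δ)

/-- `2 / log (4/3) * log n + x * log 3 * √(2 log n / (log (4/3))^3)` -/
noncomputable def bound (x : ℝ) (n : ℕ) : ℝ :=
  2 / Real.log (4 / 3) * Real.log n
    + x * (Real.log 3 * Real.sqrt (2 * Real.log n / Real.log (4 / 3) ^ 3))

/-- The distribution function of the standard normal law. -/
noncomputable def Phi (x : ℝ) : ℝ :=
  ProbabilityTheory.cdf (ProbabilityTheory.gaussianReal 0 1) x

/-- The value at `x` of the quadratic polynomial with quadratic part `∑ A i j x i x j`, linear part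
`∑ l i x i` and constant term `c`. -/
def Val {k : ℕ} (A : Fin k → Fin k → ℤ) (l : Fin k → ℤ) (c : ℤ) (x : Fin k → ℤ) : ℤ :=
  ∑ i, ∑ j, A i j * x i * x j + ∑ i, l i * x i + c

/-- The quadratic form `∑ A i j x i x j` has rank at least two: the symmetric matrix
`A i j + A j i` has a minor of order two that is not zero. -/
def RankTwo {k : ℕ} (A : Fin k → Fin k → ℤ) : Prop :=
  ∃ p q r s : Fin k, (A p r + A r p) * (A q s + A s q) ≠ (A p s + A s p) * (A q r + A r q)

/-- The integral points `x` of the box `a i < x i ≤ b i` with `x ∈ D` at which the polynomial has a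
positive value with `u < value ≤ v`. -/
def Points {k : ℕ} (A : Fin k → Fin k → ℤ) (l : Fin k → ℤ) (c : ℤ) (a b : Fin k → ℤ) (u v : ℤ)
    (D : Set (Fin k → ℤ)) : Set (Fin k → ℤ) :=
  {x | (∀ i, a i < x i ∧ x i ≤ b i) ∧ (u < Val A l c x ∧ Val A l c x ≤ v) ∧ 0 < Val A l c x ∧ x ∈ D}

/-- THE FREQUENCY of the property `P` of positive integers along quadratic polynomials is `f`: for every
integral quadratic form `A` of rank at least two in `k` variables, all `B, ε > 0` and `q ≥ 1` there is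
`R₀` such that for all `R ≥ R₀`, for all polynomials with quadratic part `A`, linear coefficients at most
`B R` and constant term at most `B R ^ 2`, all boxes in `[-R, R] ^ k`, all `u`, `v` and all sets `D` of
integral points periodic modulo `q`, the number of the points `x ∈ D` of the box with a positive value
between `u` and `v` that has the property `P` is `f` times the number of all points `x ∈ D` of the box
with a positive value between `u` and `v`, up to `ε R ^ k`. -/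
def Frequency (P : ℕ → Prop) (f : ℝ) : Prop := ∀ (k : ℕ) (A : Fin k → Fin k → ℤ), RankTwo A →
  ∀ (B ε : ℝ) (q : ℕ), 0 < B → 0 < ε → 1 ≤ q → ∃ R₀ : ℕ, ∀ R : ℕ, R₀ ≤ R →
  ∀ (l : Fin k → ℤ) (c : ℤ) (a b : Fin k → ℤ), (∀ i, |(l i : ℝ)| ≤ B * R) → |(c : ℝ)| ≤ B * R ^ 2 →
  (∀ i, |a i| ≤ R ∧ |b i| ≤ R) → ∀ (u v : ℤ) (D : Set (Fin k → ℤ)),
  (∀ x y : Fin k → ℤ, (∀ i, x i ≡ y i [ZMOD q]) → (x ∈ D ↔ y ∈ D)) →
  |({x ∈ Points A l c a b u v D | P (Val A l c x).toNat}.ncard : ℝ) - f * (Points A l c a b u v D).ncard| ≤ ε * R ^ k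

theorem freq_of {P : ℕ → Prop} {f : ℝ} (h : Pool.Agent.Run7.h145.QL.QV.Fr P f) : Frequency P f :=
  Pool.Agent.Run7.h145.QL.X.of_fr h

/-- LOGARITHMIC BOUNDS FOR TOTAL STOPPING TIMES ALONG QUADRATIC POLYNOMIALS.
Let `δ > 0` be the natural density of the positive integers with finite total stopping time (`δ = 1`
if and only if all are of this kind). In the sense of `Frequency` (positive values of quadratic
polynomials with quadratic part of rank at least two, at the points of boxes and of sets periodic modulo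
`q`, uniformly in the lower coefficients, the box, the range of values and the periodic set):
(1) the bound `t ≤ c log n` for the total stopping time `t` of `n` holds with frequency `δ` if
`c > 2 / log (4/3)` and with frequency `0` if `c < 2 / log (4/3)`;
(2) the `n` with finite total stopping time `≡ a` and number of odd terms before `1` `≡ b` modulo `m`
have frequency `δ / m²`; those with, moreover, total stopping time at most `bound x n` have frequency
`δ Φ(x) / m²`.
(3) Let the property `P` have the frequency `f` along quadratic polynomials. Then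
 (a) for every quadratic polynomial in `k` variables with quadratic part of rank at least two that takes
     a positive value, `P` holds at the proportion `f` of the points of the cubes `[-N, N] ^ k` at which
     the value is positive;
 (b) `P (x ^ 2 + y ^ 2)` holds for the proportion `f` of the integral points with `0 < x ^ 2 + y ^ 2 ≤ N`;
 (c) `P (x y)` holds for the proportion `f` of the pairs `1 ≤ x, y ≤ N`;
 (d) if `f > 0` and `β ^ 2 ≠ 4 α γ`, every large `n` has at least `κ n` representations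
     `n = α x ^ 2 + β x y + γ y ^ 2 + t` with positive `x`, `y` at most `√n` and `t` with the property `P`.
(4) For every `c > 2 / log (4/3)`, every such polynomial with quadratic part positive somewhere and every
sequence `L j → ∞`: all positive integers have finite total stopping time if and only if the proportion
of the points of the cube `[-L j, L j] ^ k` with a positive value `n` at which the total stopping time of
`n` is at most `c log n`, among all points of the cube with a positive value, tends to `1`. -/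
theorem result : ∃ δ : ℝ, 0 < δ ∧ δ ≤ 1 ∧ (δ = 1 ↔ ∀ n : ℕ, 1 ≤ n → ∃ t, IsTotalStoppingTime n t) ∧
    HasDensity (fun n => ∃ t, IsTotalStoppingTime n t) δ ∧
    (∀ c : ℝ, 2 / Real.log (4 / 3) < c →
      Frequency (fun n => ∃ t : ℕ, IsTotalStoppingTime n t ∧ (t : ℝ) ≤ c * Real.log n) δ) ∧
    (∀ c : ℝ, c < 2 / Real.log (4 / 3) →
      Frequency (fun n => ∃ t : ℕ, IsTotalStoppingTime n t ∧ (t : ℝ) ≤ c * Real.log n) 0) ∧
    (∀ (m : ℕ) (a b : ℤ), 1 ≤ m →
      Frequency (fun n => ∃ t : ℕ, IsTotalStoppingTime n t ∧ (t : ℤ) ≡ a [ZMOD m] ∧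
        (odds t n : ℤ) ≡ b [ZMOD m]) (δ / m ^ 2) ∧
      ∀ x : ℝ, Frequency (fun n => ∃ t : ℕ, (t : ℝ) ≤ bound x n ∧ IsTotalStoppingTime n t ∧
        (t : ℤ) ≡ a [ZMOD m] ∧ (odds t n : ℤ) ≡ b [ZMOD m]) (δ * Phi x / m ^ 2)) ∧
    (∀ (P : ℕ → Prop) (f : ℝ), Frequency P f →
      (∀ (k : ℕ) (A : Fin k → Fin k → ℤ), RankTwo A → ∀ (l : Fin k → ℤ) (c : ℤ) (x₀ : Fin k → ℤ),
        0 < ∑ i, ∑ j, A i j * x₀ i * x₀ j →
        Tendsto (fun N : ℕ => ({x : Fin k → ℤ | (∀ i, |x i| ≤ N) ∧ 0 < Val A l c x ∧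
          P (Val A l c x).toNat}.ncard : ℝ) /
          {x : Fin k → ℤ | (∀ i, |x i| ≤ N) ∧ 0 < Val A l c x}.ncard) atTop (𝓝 f)) ∧
      Tendsto (fun N : ℕ => ({p : ℤ × ℤ | 0 < p.1 ^ 2 + p.2 ^ 2 ∧ p.1 ^ 2 + p.2 ^ 2 ≤ N ∧
        P (p.1 ^ 2 + p.2 ^ 2).toNat}.ncard : ℝ) /
        {p : ℤ × ℤ | 0 < p.1 ^ 2 + p.2 ^ 2 ∧ p.1 ^ 2 + p.2 ^ 2 ≤ N}.ncard) atTop (𝓝 f) ∧
      Tendsto (fun N : ℕ => ({p : ℕ × ℕ | 1 ≤ p.1 ∧ 1 ≤ p.2 ∧ p.1 ≤ N ∧ p.2 ≤ N ∧
        P (p.1 * p.2)}.ncard : ℝ) / N ^ 2) atTop (𝓝 f) ∧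
      (0 < f → ∀ α β γ : ℤ, β ^ 2 ≠ 4 * α * γ → ∃ κ : ℝ, 0 < κ ∧ ∃ n₀ : ℕ, ∀ n : ℕ, n₀ ≤ n →
        κ * n ≤ {p : ℤ × ℤ | (0 < p.1 ∧ p.1 ^ 2 ≤ n) ∧ (0 < p.2 ∧ p.2 ^ 2 ≤ n) ∧
          ∃ t : ℕ, 1 ≤ t ∧ P t ∧ (n : ℤ) = (α * p.1 ^ 2 + β * p.1 * p.2 + γ * p.2 ^ 2) + t}.ncard)) ∧
    (∀ c : ℝ, 2 / Real.log (4 / 3) < c → ∀ (k : ℕ) (A : Fin k → Fin k → ℤ), RankTwo A →
      ∀ (l : Fin k → ℤ) (r : ℤ) (x₀ : Fin k → ℤ), 0 < ∑ i, ∑ j, A i j * x₀ i * x₀ j →
      ∀ L : ℕ → ℕ, Tendsto L atTop atTop →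
      ((∀ n : ℕ, 1 ≤ n → ∃ t, IsTotalStoppingTime n t) ↔
        Tendsto (fun j : ℕ => ({x : Fin k → ℤ | (∀ i, |x i| ≤ L j) ∧ 0 < Val A l r x ∧
          ∃ t : ℕ, IsTotalStoppingTime (Val A l r x).toNat t ∧
            (t : ℝ) ≤ c * Real.log ((Val A l r x).toNat : ℕ)}.ncard : ℝ) /
          {x : Fin k → ℤ | (∀ i, |x i| ≤ L j) ∧ 0 < Val A l r x}.ncard) atTop (𝓝 1))) := by
  obtain ⟨δ, h0, h1, h2, h3, h4, h5⟩ := Pool.Agent.Run7.h145.QL.rel_laws Pool.Agent.Run7.h145.QL.QV
  have hiff : ∀ n : ℕ, (∃ k : ℕ, T^[k] n = 1) ↔ ∃ t, IsTotalStoppingTime n t :=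
    Pool.Agent.Run7.h145.QL.hit_iff
  have hH : Pool.Agent.Run7.h145.QL.QV.Fr (fun n => ∃ t, IsTotalStoppingTime n t) δ := h4
  have huniq : ∀ n t t' : ℕ, IsTotalStoppingTime n t → IsTotalStoppingTime n t' → t = t' := by
    intro n t t' g1 g2
    rcases lt_trichotomy t t' with h | h | h
    · exact absurd g1.1 (g2.2 t h)
    · exact h
    · exact absurd g2.1 (g1.2 t' h)
  have hrr := Pool.Agent.H499R2.HL.rr_pos
  have hl3 : 0 < Real.log 3 := Real.log_pos (by norm_num)
  have hlln : ∀ η : ℝ, 0 < η → Pool.Agent.Run7.h145.QL.QV.Fr (fun n => ∃ t : ℕ, IsTotalStoppingTime n t ∧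
      |(t : ℝ) - 2 / Real.log (4 / 3) * Real.log n| ≤ η * Real.log n) δ := by
    intro η hη
    have h6 := Pool.Agent.Run7.h145.QL.lln Pool.Agent.Run7.h145.QL.QV (f := fun k _ => (k : ℝ))
      (α := 2 / Real.log (4 / 3))
      (σ := Real.log 3 * Pool.Agent.H499R2.HL.rr) (δ := δ) (η := η) (by positivity) h0.le h1 hη (fun x => by
        have h7 := ((h5 1 0 0 le_rfl).2.2 x).1
        have e1 : δ / ((1 : ℕ) : ℝ) ^ 2 * Pool.Agent.H499R2.ND.Phi x = δ * Pool.Agent.H499R2.ND.Phi x := by simp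
        rw [e1] at h7
        refine Pool.Agent.Run7.h145.QL.QV.congr 0 (fun n _ => exists_congr fun k => and_congr_right fun _ => ?_) h7
        rw [← Pool.Agent.Run7.h145.QL.bk_thr]
        simp [Int.modEq_one]) h4
    exact h6
  have hup : ∀ c : ℝ, 2 / Real.log (4 / 3) < c →
      Frequency (fun n => ∃ t : ℕ, IsTotalStoppingTime n t ∧ (t : ℝ) ≤ c * Real.log n) δ := by
    intro c hc
    apply freq_of
    refine Pool.Agent.Run7.h145.QL.QV.squeeze fun η hη => ⟨_, _, δ, δ, 0, fun n _ => ?_, fun n _ => ?_,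
      hlln (c - 2 / Real.log (4 / 3)) (by linarith), hH, le_rfl, le_rfl, by linarith⟩
    · rintro ⟨t, g1, g2⟩
      refine ⟨t, g1, ?_⟩
      have g3 := (abs_le.1 g2).2
      linarith
    · rintro ⟨t, g1, -⟩
      exact ⟨t, g1⟩
  have hcub : ∀ (P : ℕ → Prop) (f : ℝ), Frequency P f → ∀ (k : ℕ) (A : Fin k → Fin k → ℤ), RankTwo A →
      ∀ (l : Fin k → ℤ) (c : ℤ) (x₀ : Fin k → ℤ), 0 < ∑ i, ∑ j, A i j * x₀ i * x₀ j →
      Tendsto (fun N : ℕ => ({x : Fin k → ℤ | (∀ i, |x i| ≤ N) ∧ 0 < Val A l c x ∧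
        P (Val A l c x).toNat}.ncard : ℝ) /
        {x : Fin k → ℤ | (∀ i, |x i| ≤ N) ∧ 0 < Val A l c x}.ncard) atTop (𝓝 f) :=
    fun P f h k A hA l c x₀ h0 => Pool.Agent.Run7.h145.QL.X.cubes h hA l c h0
  refine ⟨δ, h0, h1, h2.trans (forall₂_congr fun n _ => hiff n), ?_, hup, fun c hc => ?_,
    fun m a b hm => ⟨?_, fun x => ?_⟩, ?_, ?_⟩
  · exact Pool.Agent.H499R2.LT.Dn_iff (fun n _ => hiff n) h3
  · apply freq_of
    have hz := Pool.Agent.Run7.h145.QL.QV.diff
      (R := fun n => (∃ t, IsTotalStoppingTime n t) ∧ ¬ ∃ t, IsTotalStoppingTime n t) hH hH (fun _ h => h)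
      (fun _ => Iff.rfl)
    have hd := Pool.Agent.Run7.h145.QL.QV.diff
      (R := fun n => (∃ t, IsTotalStoppingTime n t) ∧ ¬ ∃ t : ℕ, IsTotalStoppingTime n t ∧
        |(t : ℝ) - 2 / Real.log (4 / 3) * Real.log n| ≤ (2 / Real.log (4 / 3) - c) / 2 * Real.log n)
      (hlln ((2 / Real.log (4 / 3) - c) / 2) (by linarith)) hH (fun _ h => ⟨h.choose, h.choose_spec.1⟩)
      (fun _ => Iff.rfl)
    refine Pool.Agent.Run7.h145.QL.QV.squeeze fun η hη => ⟨_, _, δ - δ, δ - δ, 2, fun n _ => ?_, fun n hn => ?_,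
      hz, hd, by simp, by simp, by linarith⟩
    · rintro ⟨g1, g2⟩
      exact absurd g1 g2
    · rintro ⟨t, g1, g2⟩
      refine ⟨⟨t, g1⟩, ?_⟩
      rintro ⟨t', g3, g4⟩
      have e := huniq n t' t g3 g1
      subst e
      have hL : 0 < Real.log n := Real.log_pos (by exact_mod_cast (by omega : 1 < n))
      have g5 := (abs_le.1 g4).1
      nlinarith
  · exact freq_of (h5 m a b hm).1
  · apply freq_of
    have h6 := ((h5 m a b hm).2.2 x).1
    have e : δ / (m : ℝ) ^ 2 * Pool.Agent.H499R2.ND.Phi x = δ * Phi x / m ^ 2 := by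
      unfold Phi
      rw [← Pool.Agent.H499R2.ND.phi_cdf]
      ring
    rw [e] at h6
    refine Pool.Agent.Run7.h145.QL.QV.congr 0 (fun n hn => exists_congr fun t => ?_) h6
    constructor
    · rintro ⟨g1, g2, g3⟩; exact ⟨g2, g1, g3⟩
    · rintro ⟨g1, g2, g3⟩; exact ⟨g2, g1, g3⟩
  · intro P f h
    exact ⟨fun k A hA l c x₀ h0 => Pool.Agent.Run7.h145.QL.X.cubes h hA l c h0,
      Pool.Agent.Run7.h145.QL.X.two_squares h, Pool.Agent.Run7.h145.QL.X.products h,
      fun hf α β γ hd => Pool.Agent.Run7.h145.QL.X.represent hf h hd⟩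
  · intro c hc k A hA l r x₀ hx₀ L hL
    have h6 := (hcub _ _ (hup c hc) k A hA l r x₀ hx₀).comp hL
    constructor
    · intro h
      have e : δ = 1 := (h2.trans (forall₂_congr fun n _ => hiff n)).2 h
      rw [e] at h6
      exact h6
    · intro h
      exact (h2.trans (forall₂_congr fun n _ => hiff n)).1 (tendsto_nhds_unique h6 h)

end Pool.Agent.Results.MP_a1568a_nt.QuadraticValues
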